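import Mathlib

set_option autoImplicit false

open FirstOrder FirstOrder.Language

namespace Pool.Agent.Results.MP_718be6_lc.NoLStable

/-- atoms with variables in `α` -/
structure Atom (L : FirstOrder.Language.{0, 0}) (α : Type) where
  n : ℕ
  R : L.Relations n
  ts : Fin n → L.Term α

/-- a rule `head ← pos, ∼ neg` -/
structure Rule (L : FirstOrder.Language.{0, 0}) where
  head : Atom L ℕ
  pos : List (Atom L ℕ)
  neg : List (Atom L ℕ)

variable {L : FirstOrder.Language.{0, 0}}

/-- the variables of an atom -/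
def Atom.vars (a : Atom L ℕ) : Set ℕ := {x | ∃ i, x ∈ (a.ts i).varFinset}

/-- the ground instance of an atom under a ground substitution -/
def Atom.inst (θ : ℕ → L.Term Empty) (a : Atom L ℕ) : Atom L Empty :=
  ⟨a.n, a.R, fun i => (a.ts i).subst θ⟩

/-- every body variable occurs in the head -/
def InternalVariableFree (P : List (Rule L)) : Prop :=
  ∀ r ∈ P, ∀ a ∈ r.pos ++ r.neg, a.vars ⊆ r.head.vars

/-- `J` is a three-valued model of the reduct `P^I`. Truth values are `0 < 1 < 2` in `Fin 3`,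
standing for false, undefined, true. A ground rule survives if no negated atom is true in `I`; every
lower bound `t` of its body values (`J` of the positive atoms, undefined for each negated atom that
is undefined in `I`) is at most the value of the head. -/
def ModelOfReduct (P : List (Rule L)) (I J : Atom L Empty → Fin 3) : Prop :=
  ∀ r ∈ P, ∀ θ : ℕ → L.Term Empty, (∀ b ∈ r.neg, I (b.inst θ) ≠ 2) →
    ∀ t : Fin 3, (∀ a ∈ r.pos, t ≤ J (a.inst θ)) → (∀ b ∈ r.neg, I (b.inst θ) = 1 → t ≤ 1) →
      t ≤ J (r.head.inst θ)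

/-- stable three-valued models: `I` is the least model of the reduct `P^I` -/
def StablePartial (P : List (Rule L)) (I : Atom L Empty → Fin 3) : Prop :=
  IsLeast {J | ModelOfReduct P I J} I

/-- function symbols: a constant `z` and a unary `s` -/
inductive Fn : ℕ → Type
  | z : Fn 0
  | s : Fn 1

/-- four unary predicate symbols -/
inductive Rl : ℕ → Type
  | a : Rl 1
  | up : Rl 1
  | dn : Rl 1
  | c : Rl 1

def Lg : FirstOrder.Language.{0, 0} := ⟨Fn, Rl⟩

def zt {α : Type} : Lg.Term α := Term.func Fn.z Fin.elim0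

def st {α : Type} (t : Lg.Term α) : Lg.Term α := Term.func Fn.s fun _ => t

def at1 {α : Type} (R : Rl 1) (t : Lg.Term α) : Atom Lg α := ⟨1, R, fun _ => t⟩

def x0 : Lg.Term ℕ := Term.var 0

/-- the program -/
def prog : List (Rule Lg) :=
  [⟨at1 .up x0, [at1 .a (st x0)], []⟩,
   ⟨at1 .up x0, [at1 .up (st x0)], []⟩,
   ⟨at1 .dn (st x0), [at1 .a x0], []⟩,
   ⟨at1 .dn (st x0), [at1 .dn x0], []⟩,
   ⟨at1 .a x0, [], [at1 .up x0, at1 .dn x0]⟩,
   ⟨at1 .c x0, [], [at1 .c x0, at1 .up x0]⟩,
   ⟨at1 .dn zt, [at1 .dn zt], []⟩]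

def num : ℕ → Lg.Term Empty
  | 0 => zt
  | n + 1 => st (num n)

def toN : Lg.Term Empty → ℕ
  | .var e => e.elim
  | .func Fn.z _ => 0
  | .func Fn.s ts => toN (ts 0) + 1

theorem toN_num (n : ℕ) : toN (num n) = n := by
  induction n with
  | zero => simp [num, zt, toN]
  | succ n ih => simp [num, st, toN, ih]

theorem num_surj (t : Lg.Term Empty) : ∃ n, t = num n := by
  induction t with
  | var e => exact e.elim
  | func f ts ih =>
    cases f with
    | z => exact ⟨0, by simp only [num, zt]; congr 1; funext i; exact i.elim0⟩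
    | s =>
      obtain ⟨n, hn⟩ := ih 0
      exact ⟨n + 1, by
        simp only [num, st]; congr 1; funext i; rw [Subsingleton.elim i 0, hn]⟩

def A (R : Rl 1) (m : ℕ) : Atom Lg Empty := at1 R (num m)

theorem atom_cases (b : Atom Lg Empty) : ∃ R m, b = A R m := by
  obtain ⟨n, R, ts⟩ := b
  have : ∀ ts : Fin 1 → Lg.Term Empty, ∃ m, ts = fun _ => num m := fun ts => by
    obtain ⟨m, hm⟩ := num_surj (ts 0)
    exact ⟨m, funext fun i => by rw [Subsingleton.elim i 0, hm]⟩
  cases R <;> obtain ⟨m, rfl⟩ := this ts <;> exact ⟨_, m, rfl⟩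

/-- an interpretation given by its values -/
def mk (f : Rl 1 → ℕ → Fin 3) : Atom Lg Empty → Fin 3
  | ⟨_, .a, ts⟩ => f .a (toN (ts 0))
  | ⟨_, .up, ts⟩ => f .up (toN (ts 0))
  | ⟨_, .dn, ts⟩ => f .dn (toN (ts 0))
  | ⟨_, .c, ts⟩ => f .c (toN (ts 0))

theorem mk_A (f : Rl 1 → ℕ → Fin 3) (R : Rl 1) (m : ℕ) : mk f (A R m) = f R m := by
  cases R <;> simp [A, at1, mk, toN_num]

theorem model_iff (I J : Atom Lg Empty → Fin 3) : ModelOfReduct prog I J ↔ ∀ m,
    J (A .a (m + 1)) ≤ J (A .up m) ∧ J (A .up (m + 1)) ≤ J (A .up m) ∧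
    J (A .a m) ≤ J (A .dn (m + 1)) ∧ J (A .dn m) ≤ J (A .dn (m + 1)) ∧
    (I (A .up m) ≠ 2 → I (A .dn m) ≠ 2 → ∀ t : Fin 3, (I (A .up m) = 1 → t ≤ 1) →
      (I (A .dn m) = 1 → t ≤ 1) → t ≤ J (A .a m)) ∧
    (I (A .c m) ≠ 2 → I (A .up m) ≠ 2 → ∀ t : Fin 3, (I (A .c m) = 1 → t ≤ 1) →
      (I (A .up m) = 1 → t ≤ 1) → t ≤ J (A .c m)) := by
  have e1 : ∀ (θ : ℕ → Lg.Term Empty) m, θ 0 = num m → ∀ R, (at1 R x0).inst θ = A R m :=
    fun θ m h R => by simp [Atom.inst, at1, x0, A, Term.subst, h]
  have e2 : ∀ (θ : ℕ → Lg.Term Empty) m, θ 0 = num m → ∀ R,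
      (at1 R (st x0)).inst θ = A R (m + 1) :=
    fun θ m h R => by simp [Atom.inst, at1, x0, A, Term.subst, h, st, num]
  simp only [ModelOfReduct, prog, List.forall_mem_cons, List.not_mem_nil, IsEmpty.forall_iff,
    implies_true, and_true, true_imp_iff, and_imp]
  constructor
  · rintro ⟨h1, h2, h3, h4, h5, h6, -⟩ m
    have a1 := e1 (fun _ => num m) m rfl
    have a2 := e2 (fun _ => num m) m rfl
    refine ⟨?_, ?_, ?_, ?_, ?_, ?_⟩
    · simpa [a1, a2] using h1 (fun _ => num m) _ le_rfl
    · simpa [a1, a2] using h2 (fun _ => num m) _ le_rfl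
    · simpa [a1, a2] using h3 (fun _ => num m) _ le_rfl
    · simpa [a1, a2] using h4 (fun _ => num m) _ le_rfl
    · simpa only [a1] using h5 (fun _ => num m)
    · simpa only [a1] using h6 (fun _ => num m)
  · intro h
    refine ⟨fun θ => ?_, fun θ => ?_, fun θ => ?_, fun θ => ?_, fun θ => ?_, fun θ => ?_,
      fun θ t ht => ht⟩ <;>
    obtain ⟨m, hm⟩ := num_surj (θ 0) <;>
    simp only [e1 θ m hm, e2 θ m hm]
    · exact fun t ht => ht.trans (h m).1
    · exact fun t ht => ht.trans (h m).2.1
    · exact fun t ht => ht.trans (h m).2.2.1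
    · exact fun t ht => ht.trans (h m).2.2.2.1
    · exact (h m).2.2.2.2.1
    · exact (h m).2.2.2.2.2

def In (n : ℕ) : Atom Lg Empty → Fin 3 := mk fun R m => match R with
  | .a => if m = n then 2 else 0
  | .up => if m < n then 2 else 0
  | .dn => if n < m then 2 else 0
  | .c => if m < n then 0 else 1

theorem In_stable (n : ℕ) : StablePartial prog (In n) := by
  constructor
  · rw [Set.mem_setOf_eq, model_iff]
    intro m
    simp only [In, mk_A]
    refine ⟨?_, ?_, ?_, ?_, ?_, ?_⟩ <;> split_ifs <;> first | omega | decide | simp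
  · intro J hJ b
    rw [Set.mem_setOf_eq, model_iff] at hJ
    simp only [In, mk_A] at hJ
    have ha : 2 ≤ J (A .a n) := (hJ n).2.2.2.2.1 (by simp) (by simp) 2 (by simp) (by simp)
    have hup : ∀ k m, m + k + 1 = n → 2 ≤ J (A .up m) := by
      intro k
      induction k with
      | zero => intro m h; exact le_trans (h ▸ ha) (hJ m).1
      | succ k ih => intro m h; exact le_trans (ih (m + 1) (by omega)) (hJ m).2.1
    have hdn : ∀ k, 2 ≤ J (A .dn (n + k + 1)) := by
      intro k
      induction k with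
      | zero => exact le_trans ha (hJ n).2.2.1
      | succ k ih => exact le_trans ih (hJ (n + k + 1)).2.2.2.1
    obtain ⟨R, m, rfl⟩ := atom_cases b
    cases R <;> simp only [In, mk_A] <;> split_ifs with h <;> try exact Fin.zero_le _
    · exact h ▸ ha
    · exact hup (n - m - 1) m (by omega)
    · have := hdn (m - n - 1)
      rwa [show n + (m - n - 1) + 1 = m by omega] at this
    · exact (hJ m).2.2.2.2.2 (by simp [h]) (by simp [h]) 1 (by simp) (by simp)

theorem tail {I : Atom Lg Empty → Fin 3} (hI : StablePartial prog I) :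
    ∃ N, ∀ m, N ≤ m → I (A .c m) = 1 := by
  have hM := (model_iff I I).1 hI.1
  have least : ∀ f : Rl 1 → ℕ → Fin 3, ModelOfReduct prog I (mk f) → ∀ R m, I (A R m) ≤ f R m :=
    fun f hf R m => by rw [← mk_A f]; exact hI.2 hf _
  have hc : ∀ m, I (A .up m) ≠ 2 → I (A .c m) = 1 := by
    intro m hm
    have h2 : I (A .c m) ≠ 2 := by
      intro h2
      have := least (fun R k => match R with
        | .c => if k = m then 0 else I (A .c k)
        | R => I (A R k)) ((model_iff _ _).2 fun k => by
          simp only [mk_A]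
          refine ⟨(hM k).1, (hM k).2.1, (hM k).2.2.1, (hM k).2.2.2.1, (hM k).2.2.2.2.1, ?_⟩
          split_ifs with h
          · subst h; exact fun h => absurd h2 h
          · exact (hM k).2.2.2.2.2) .c m
      simp [h2] at this
    have h1 := (hM m).2.2.2.2.2 h2 hm 1 (by simp) (by simp)
    omega
  have ha : ∀ k, I (A .up k) = 2 → I (A .a k) ≠ 2 := by
    intro k hk h2
    have := least (fun R j => match R with
      | .a => if j = k then 0 else I (A .a j)
      | R => I (A R j)) ((model_iff _ _).2 fun j => by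
        simp only [mk_A]
        refine ⟨?_, (hM j).2.1, ?_, (hM j).2.2.2.1, ?_, (hM j).2.2.2.2.2⟩ <;> split_ifs with h
        · exact Fin.zero_le _
        · exact (hM j).1
        · exact Fin.zero_le _
        · exact (hM j).2.2.1
        · subst h; exact fun h => absurd hk h
        · exact (hM j).2.2.2.2.1) .a k
    simp [h2] at this
  have hex : ∃ N, I (A .up N) ≠ 2 := by
    by_contra hn
    push Not at hn
    have := least (fun R j => match R with
      | .up => 1
      | R => I (A R j)) ((model_iff _ _).2 fun j => by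
        simp only [mk_A]
        refine ⟨?_, le_rfl, (hM j).2.2.1, (hM j).2.2.2.1, (hM j).2.2.2.2.1, (hM j).2.2.2.2.2⟩
        have := ha (j + 1) (hn _)
        omega) .up 0
    simp [hn 0] at this
  obtain ⟨N, hN⟩ := hex
  refine ⟨N, fun m hm => hc m ?_⟩
  induction m, hm using Nat.le_induction with
  | base => exact hN
  | succ m _ ih =>
    have := (hM m).2.1
    omega

theorem result : InternalVariableFree prog ∧ (∃ I, StablePartial prog I) ∧
    ∀ I, StablePartial prog I → ∃ J, StablePartial prog J ∧ {b | J b = 1} ⊂ {b | I b = 1} := by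
  refine ⟨?_, ⟨_, In_stable 0⟩, fun I hI => ?_⟩
  · simp [InternalVariableFree, prog, Atom.vars, at1, x0, st, Term.varFinset]
  obtain ⟨N, hN⟩ := tail hI
  refine ⟨In (N + 1), In_stable _, fun b hb => ?_, fun h => ?_⟩
  · obtain ⟨R, m, rfl⟩ := atom_cases b
    cases R <;> simp only [In, mk_A, Set.mem_setOf_eq] at hb <;> split_ifs at hb with h <;>
      first | exact absurd hb (by decide) | exact hN m (by omega)
  · have := h (hN N le_rfl)
    simp [In, mk_A] at this

end Pool.Agent.Results.MP_718be6_lc.NoLStable
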